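import Mathlib
import Pool.Agent.Helper596_Q.V1
import Pool.Agent.Helper596_Q.V3
import Pool.Agent.Helper596_Q.V5

/-!
# Lachlan's class: the case of signatures with function symbols

In a signature with a binary function symbol there is a stable structure with an interpretation in
`(ℚ; <)` which is not homomorphically equivalent to any structure interpretable over equality.
-/

set_option autoImplicit false

namespace Pool.Agent.Results.MP_905f9a_lc.FunctionSymbols

open FirstOrder FirstOrder.Language Pool.Agent.Helper596_Q

/-- The structure `M` has a first-order interpretation with parameters from `C` (in some finite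
dimension `d`) in the structure `A`: there is a map `π` from a definable set `D` of `d`-tuples of
elements of `A` onto `M` such that the kernel of `π`, the preimage of every relation of `M` and the
preimage of the graph of every function of `M` are definable in `A` with parameters from `C`. -/
def Interpretation (L₀ : FirstOrder.Language.{0, 0}) (A : Type) [L₀.Structure A] (C : Set A)
    (L : FirstOrder.Language.{0, 0}) (M : Type) [L.Structure M] : Prop :=
  ∃ (d : ℕ) (D : Set (Fin d → A)) (π : (Fin d → A) → M),
    Set.Definable C L₀ D ∧ (∀ m : M, ∃ x ∈ D, π x = m) ∧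
    Set.Definable C L₀ {p : Fin 2 × Fin d → A | (∀ i, (fun j => p (i, j)) ∈ D) ∧
      π (fun j => p (0, j)) = π (fun j => p (1, j))} ∧
    (∀ (n : ℕ) (R : L.Relations n), Set.Definable C L₀ {p : Fin n × Fin d → A |
      (∀ i, (fun j => p (i, j)) ∈ D) ∧ Structure.RelMap R (fun i => π (fun j => p (i, j)))}) ∧
    (∀ (n : ℕ) (f : L.Functions n), Set.Definable C L₀
      {p : Fin (n + 1) × Fin d → A | (∀ i, (fun j => p (i, j)) ∈ D) ∧
        Structure.funMap f (fun i : Fin n => π (fun j => p (i.castSucc, j))) =
          π (fun j => p (Fin.last n, j))})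

/-- `M` has a first-order interpretation in the countably infinite structure `(ℕ; =)` with empty
signature, finitely many parameters being allowed. -/
def InterpretableOverEquality (L : FirstOrder.Language.{0, 0}) (M : Type) [L.Structure M] :
    Prop :=
  ∃ C : Finset ℕ, @Interpretation Language.empty ℕ Language.emptyStructure (C : Set ℕ) L M _

/-- `M` has a first-order interpretation without parameters in the linear order `(ℚ; <)`. -/
def InterpretableInRationals (L : FirstOrder.Language.{0, 0}) (M : Type) [L.Structure M] : Prop :=
  @Interpretation Language.order ℚ (orderStructure ℚ) ∅ L M _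

/-- `M` has a stable theory: for every formula `φ(x, y)` there is a number `n` such that there are
no tuples `a i`, `b i` (`i < n`) in `M` with `φ(a i, b j)` if and only if `i ≤ j`. -/
def Stable (L : FirstOrder.Language.{0, 0}) (M : Type) [L.Structure M] : Prop :=
  ∀ (k l : ℕ) (φ : L.Formula (Fin k ⊕ Fin l)), ∃ n : ℕ,
    ¬ ∃ (a : Fin n → Fin k → M) (b : Fin n → Fin l → M),
      ∀ i j, φ.Realize (Sum.elim (a i) (b j)) ↔ i ≤ j

/-- **With function symbols, some structure in Lachlan's class is not homomorphically equivalent to
any structure interpretable over equality.** -/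
theorem result : ∃ (L : FirstOrder.Language.{0, 0}) (M : Type) (_ : L.Structure M),
    Finite (Σ n, L.Functions n) ∧ Finite (Σ n, L.Relations n) ∧ Stable L M ∧
      InterpretableInRationals L M ∧
      ∀ (N : Type) (_ : L.Structure N), InterpretableOverEquality L N →
        ¬ (Nonempty (M →[L] N) ∧ Nonempty (N →[L] M)) := by
  refine ⟨LF, MF, strF, ?_, ?_, stable_MF, interp_MF, ?_⟩
  · refine Finite.of_surjective (fun _ : Unit => (⟨2, FunS.f⟩ : Σ n, LF.Functions n)) ?_
    rintro ⟨_, ⟨⟩⟩
    exact ⟨(), rfl⟩
  · refine Finite.of_surjective (fun _ : Unit => (⟨3, RelS.p⟩ : Σ n, LF.Relations n)) ?_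
    rintro ⟨_, ⟨⟩⟩
    exact ⟨(), rfl⟩
  · rintro N _ ⟨C, d, D, π, hD, hsurj, hker, hrel, hfun⟩ ⟨⟨h⟩, ⟨g⟩⟩
    exact no_equality_MF C N d D π hD hsurj hker hrel hfun h g

end Pool.Agent.Results.MP_905f9a_lc.FunctionSymbols
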